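import Mathlib
import Pool.Agent.H33.NoEmb

set_option autoImplicit false

namespace Pool.Agent.Results.MP_25ed80_an.NoEmbedding

/-- A scattered Valdivia compact space `K` containing `[0, ω₁]` such that no subspace of `C(K)` is
isomorphic to `C([0, ω₁])`. -/
theorem result :
    ∃ (K : Type) (_ : TopologicalSpace K), CompactSpace K ∧ T2Space K ∧
      (∀ A : Set K, A.Nonempty → ∃ x ∈ A, ∃ U : Set K, IsOpen U ∧ U ∩ A = {x}) ∧
      (∃ (Γ : Type) (h : K → (Γ → ℝ)), Topology.IsEmbedding h ∧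
        Dense {x : K | {γ : Γ | h x γ ≠ 0}.Countable}) ∧
      (∃ f : Set.Iic (Ordinal.omega.{0} 1) → K, Topology.IsEmbedding f) ∧
      ∀ Y : Submodule ℝ C(K, ℝ), IsEmpty (C(Set.Iic (Ordinal.omega.{0} 1), ℝ) ≃L[ℝ] Y) := by
  obtain ⟨K, _, _, _, e, he, hD, hs, hf⟩ := Pool.Agent.H33.NoEmb.exists_K
  refine ⟨K, inferInstance, inferInstance, inferInstance, hs,
    Pool.Agent.H33.NoEmb.valdivia he hD, hf, fun Y => ⟨fun S => ?_⟩⟩
  obtain ⟨C, hC⟩ := (Y.subtypeL.comp S.toContinuousLinearMap).antilipschitz_of_isEmbedding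
    (Topology.IsEmbedding.subtypeVal.comp S.toHomeomorph.isEmbedding)
  refine Pool.Agent.H33.NoEmb.no_emb he.continuous he.injective hD
    (Y.subtypeL.comp S.toContinuousLinearMap) (c := ((C : ℝ) + 1)⁻¹) (by positivity) fun g => ?_
  rw [inv_mul_le_iff₀ (by positivity)]
  have h := hC.le_mul_norm (map_zero _) g
  nlinarith [norm_nonneg ((Y.subtypeL.comp S.toContinuousLinearMap) g)]

end Pool.Agent.Results.MP_25ed80_an.NoEmbedding
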